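import Pool.Agent.TH152.BB.Stm

/-!
# Bend and break, the part CLM (job for helper152)
-/

set_option autoImplicit false

namespace Pool.Agent.TH152.BB

namespace CLM

open Pool.Agent.TH952 (Hah)

section gen

variable {K : Type} [Field K]

lemma coeff_mul_zero {x y : Hah K} {a b : ℚ} (hx : ∀ γ < a, x.coeff γ = 0)
    (hy : ∀ γ < b, y.coeff γ = 0) : ∀ γ < a + b, (x * y).coeff γ = 0 := by
  intro γ hγ
  rw [HahnSeries.coeff_mul]
  refine Finset.sum_eq_zero fun ij hij => ?_
  rw [Finset.mem_antidiagonal] at hij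
  obtain ⟨h1, h2, h3⟩ := hij
  have h4 : a ≤ ij.1 := by
    by_contra h
    exact h1 (hx _ (not_le.1 h))
  have h5 : b ≤ ij.2 := by
    by_contra h
    exact h2 (hy _ (not_le.1 h))
  exact absurd hγ (by rw [← h3]; exact not_lt.2 (add_le_add h4 h5))

/-- the Hahn series without negative exponents -/
noncomputable def nn (K : Type) [Field K] : Subring (Hah K) where
  carrier := {x | ∀ γ < 0, x.coeff γ = 0}
  mul_mem' := by
    intro x y hx hy
    have h := coeff_mul_zero hx hy
    rw [add_zero] at h
    exact h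
  one_mem' := by
    intro γ hγ
    rw [HahnSeries.coeff_one, if_neg hγ.ne]
  add_mem' := by
    intro x y hx hy γ hγ
    rw [HahnSeries.coeff_add, hx γ hγ, hy γ hγ, add_zero]
  zero_mem' := by
    intro γ _
    rfl
  neg_mem' := by
    intro x hx γ hγ
    rw [HahnSeries.coeff_neg, hx γ hγ, neg_zero]

lemma mem_nn {x : Hah K} : x ∈ nn K ↔ ∀ γ < 0, x.coeff γ = 0 := Iff.rfl

end gen

variable {k : Type} [Field k]

lemma io_id (g : PowerSeries k) : io (RingHom.id k) g = HahnSeries.ofPowerSeries ℚ k g := by
  ext γ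
  rfl

lemma io_C (g : PowerSeries k) :
    io (RatFunc.C : k →+* RatFunc k) g = mp RatFunc.C (io (RingHom.id k) g) := by
  ext γ
  rfl

lemma io_inj : Function.Injective (io (RingHom.id k)) := by
  intro x y h
  rw [io_id, io_id] at h
  exact HahnSeries.ofPowerSeries_injective h

lemma io_coeff (g : PowerSeries k) (n : ℕ) :
    (io (RingHom.id k) g).coeff (n : ℚ) = PowerSeries.coeff n g := by
  rw [io_id]
  exact HahnSeries.ofPowerSeries_apply_coeff g n

lemma io_nn (g : PowerSeries k) : io (RingHom.id k) g ∈ nn k := by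
  intro γ hγ
  rw [io_id, HahnSeries.ofPowerSeries_apply]
  refine HahnSeries.embDomain_of_notMem_range ?_
  rintro ⟨n, hn⟩
  have : (0 : ℚ) ≤ γ := by
    rw [← hn]
    simp
  linarith

/-- the coefficients of the value of a polynomial at the generic element of a disc -/
lemma eval_coeff (β : Hah k) (q : ℚ) (P : Polynomial (Hah k)) (γ : ℚ) :
    ((P.map (mp (RatFunc.C : k →+* RatFunc k))).eval (dsc β q)).coeff γ =
      algebraMap (Polynomial k) (RatFunc k)
        (∑ i ∈ Finset.range ((Polynomial.taylor β P).natDegree + 1),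
          Polynomial.monomial i (((Polynomial.taylor β P).coeff i).coeff (γ - i * q))) := by
  unfold dsc
  rw [add_comm, ← Polynomial.taylor_eval, ← Polynomial.map_taylor, Polynomial.eval_map,
    Polynomial.eval₂_eq_sum_range, HahnSeries.coeff_sum, map_sum]
  refine Finset.sum_congr rfl fun i _ => ?_
  rw [HahnSeries.single_pow, RatFunc.algebraMap_monomial]
  have e : γ = (γ - i * q) + i • q := by
    rw [nsmul_eq_mul]
    ring
  conv_lhs => rw [e]
  rw [HahnSeries.coeff_mul_single_add, mp_coeff]

lemma coeff_ne {β : Hah k} {q : ℚ} {P : Polynomial (Hah k)} {γ : ℚ} {i : ℕ}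
    (h : ((Polynomial.taylor β P).coeff i).coeff (γ - i * q) ≠ 0) :
    ((P.map (mp (RatFunc.C : k →+* RatFunc k))).eval (dsc β q)).coeff γ ≠ 0 := by
  rw [eval_coeff]
  intro h0
  have h1 := (map_eq_zero_iff _ (RatFunc.algebraMap_injective k)).1 h0
  have h2 := congrArg (fun p => Polynomial.coeff p i) h1
  simp only [Polynomial.finsetSum_coeff, Polynomial.coeff_monomial, Polynomial.coeff_zero] at h2
  rw [Finset.sum_ite_eq', if_pos] at h2
  · exact h h2
  · rw [Finset.mem_range]
    have h3 : (Polynomial.taylor β P).coeff i ≠ 0 := by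
      intro h4
      rw [h4] at h
      exact h rfl
    exact Nat.lt_succ_of_le (Polynomial.le_natDegree_of_ne_zero h3)

lemma coeff_zero {β : Hah k} {q : ℚ} {P : Polynomial (Hah k)} {γ : ℚ}
    (h : ∀ i, ((Polynomial.taylor β P).coeff i).coeff (γ - i * q) = 0) :
    ((P.map (mp (RatFunc.C : k →+* RatFunc k))).eval (dsc β q)).coeff γ = 0 := by
  rw [eval_coeff]
  simp [h]

lemma ev_poly {β : Hah k} {q : ℚ} {E : O2 k →+* Hah (RatFunc k)}
    (hE : IsEv RatFunc.C (dsc β q) E) (p : Polynomial (PowerSeries k)) :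
    E (p : PowerSeries (PowerSeries k)) =
      ((p.map (io (RingHom.id k))).map (mp (RatFunc.C : k →+* RatFunc k))).eval (dsc β q) := by
  have h : E.comp Polynomial.coeToPowerSeries.ringHom =
      ((Polynomial.evalRingHom (dsc β q)).comp
        (Polynomial.mapRingHom (mp (RatFunc.C : k →+* RatFunc k)))).comp
        (Polynomial.mapRingHom (io (RingHom.id k))) := by
    refine Polynomial.ringHom_ext (fun g => ?_) ?_
    · simp only [RingHom.comp_apply, Polynomial.coeToPowerSeries.ringHom_apply,
        Polynomial.coe_C, Polynomial.coe_mapRingHom, Polynomial.map_C, Polynomial.coe_evalRingHom,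
        Polynomial.eval_C]
      rw [hE.C, io_C]
    · simp only [RingHom.comp_apply, Polynomial.coeToPowerSeries.ringHom_apply,
        Polynomial.coe_X, Polynomial.coe_mapRingHom, Polynomial.map_X, Polynomial.coe_evalRingHom,
        Polynomial.eval_X]
      rw [hE.X]
  exact congrArg (fun φ => φ p) h

lemma ev_nn {j : k →+* RatFunc k} {τ : Hah (RatFunc k)} {E : O2 k →+* Hah (RatFunc k)}
    (hE : IsEv j τ E) (f : O2 k) : E f ∈ nn (RatFunc k) := by
  intro γ hγ
  rw [hE.cont f γ 0 (by simpa using hγ)]
  simp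

/-- the uniformizer `s` -/
noncomputable def sX (k : Type) [Field k] : O2 k := PowerSeries.C (PowerSeries.X : PowerSeries k)

lemma sX_pow_dvd_coeff {a : ℕ} {f : O2 k} (h : sX k ^ a ∣ f) (i : ℕ) :
    (PowerSeries.X : PowerSeries k) ^ a ∣ PowerSeries.coeff i f := by
  obtain ⟨g, rfl⟩ := h
  unfold sX
  rw [← map_pow, PowerSeries.coeff_C_mul]
  exact Dvd.intro _ rfl

lemma sX_pow_dvd {a : ℕ} {f : O2 k}
    (h : ∀ i, (PowerSeries.X : PowerSeries k) ^ a ∣ PowerSeries.coeff i f) : sX k ^ a ∣ f := by
  choose g hg using h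
  refine ⟨PowerSeries.mk g, ?_⟩
  ext1 i
  unfold sX
  rw [← map_pow, PowerSeries.coeff_C_mul, hg i, PowerSeries.coeff_mk]

lemma exists_content {f0 : O2 k} (h0 : f0 ≠ 0) :
    ∃ (a : ℕ) (g0 : O2 k), f0 = sX k ^ a * g0 ∧ ¬ sX k ∣ g0 := by
  classical
  obtain ⟨i, hi⟩ : ∃ i, PowerSeries.coeff i f0 ≠ 0 := by
    by_contra h
    push Not at h
    exact h0 (PowerSeries.ext fun n => by simpa using h n)
  obtain ⟨n, hn⟩ : ∃ n, PowerSeries.coeff n (PowerSeries.coeff i f0) ≠ 0 := by
    by_contra h
    push Not at h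
    exact hi (PowerSeries.ext fun n => by simpa using h n)
  have hex : ∃ a, ¬ sX k ^ a ∣ f0 := by
    refine ⟨n + 1, fun h => ?_⟩
    have h1 := sX_pow_dvd_coeff h i
    rw [PowerSeries.X_pow_dvd_iff] at h1
    exact hn (h1 n (Nat.lt_succ_self n))
  have hpos : Nat.find hex ≠ 0 := by
    intro h
    have := Nat.find_spec hex
    rw [h, pow_zero] at this
    exact this (one_dvd _)
  obtain ⟨a, ha⟩ := Nat.exists_eq_succ_of_ne_zero hpos
  have h1 : sX k ^ a ∣ f0 := by
    by_contra h
    exact Nat.find_min hex (m := a) (by omega) h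
  obtain ⟨g0, hg0⟩ := h1
  refine ⟨a, g0, hg0, fun h => ?_⟩
  have h2 := Nat.find_spec hex
  rw [ha] at h2
  apply h2
  rw [hg0, Nat.succ_eq_add_one, pow_succ]
  exact mul_dvd_mul_left _ h

lemma map_residue_ne {g0 : O2 k} (h : ¬ sX k ∣ g0) :
    g0.map (IsLocalRing.residue (PowerSeries k)) ≠ 0 := by
  intro h0
  apply h
  rw [← pow_one (sX k)]
  refine sX_pow_dvd fun i => ?_
  rw [pow_one]
  have h1 := congrArg (PowerSeries.coeff i) h0
  rw [PowerSeries.coeff_map, map_zero, IsLocalRing.residue_eq_zero_iff,
    PowerSeries.maximalIdeal_eq_span_X, Ideal.mem_span_singleton] at h1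
  exact h1

/-- a root of the larger polynomial with smaller multiplicity in the smaller one -/
lemma exists_root {L : Type} [Field L] [IsAlgClosed L] {P R : Polynomial L} (hR : R ≠ 0)
    (h : R.degree < P.degree) :
    ∃ α, Polynomial.rootMultiplicity α R < Polynomial.rootMultiplicity α P := by
  classical
  by_contra hcon
  push Not at hcon
  have h1 : P.roots ≤ R.roots := by
    rw [Multiset.le_iff_count]
    intro α
    rw [Polynomial.count_roots, Polynomial.count_roots]
    exact hcon α
  have h2 := Multiset.card_le_card h1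
  have h3 : Multiset.card P.roots = P.natDegree :=
    (Polynomial.splits_iff_card_roots.1 (IsAlgClosed.splits P))
  have h4 := Polynomial.card_roots' R
  have h5 : R.natDegree < P.natDegree := Polynomial.natDegree_lt_natDegree hR h
  omega

lemma order_nn {K : Type} [Field K] {x : Hah K} (hx : x ∈ nn K) : 0 ≤ x.order := by
  by_cases h : x = 0
  · rw [h, HahnSeries.order_zero]
  · by_contra hlt
    exact HahnSeries.coeff_order_eq_zero.not.2 h (hx _ (not_le.1 hlt))

lemma unit_order {j : k →+* RatFunc k} {τ : Hah (RatFunc k)} {E : O2 k →+* Hah (RatFunc k)}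
    (hE : IsEv j τ E) {u : O2 k} (hu : IsUnit u) : E u ≠ 0 ∧ (E u).order = 0 := by
  obtain ⟨v, hv⟩ := hu.exists_right_inv
  have h1 : E u * E v = 1 := by rw [← map_mul, hv, map_one]
  have h2 : E u ≠ 0 := left_ne_zero_of_mul_eq_one h1
  have h3 : E v ≠ 0 := right_ne_zero_of_mul_eq_one h1
  have h4 := HahnSeries.order_mul h2 h3
  rw [h1, HahnSeries.order_one] at h4
  have h5 := order_nn (ev_nn hE u)
  have h6 := order_nn (ev_nn hE v)
  exact ⟨h2, by linarith⟩

/-- the Taylor coefficients at an integral point are integral -/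
lemma taylor_nn {α : Hah k} (hα : α ∈ nn k) (w : Polynomial (PowerSeries k)) (i : ℕ) :
    (Polynomial.taylor α (w.map (io (RingHom.id k)))).coeff i ∈ nn k := by
  rw [Polynomial.taylor_coeff]
  rw [Polynomial.eval_eq_sum_range]
  refine Subring.sum_mem _ fun m _ => Subring.mul_mem _ ?_ (Subring.pow_mem _ hα _)
  rw [Polynomial.hasseDeriv_coeff]
  refine Subring.mul_mem _ (natCast_mem _ _) ?_
  rw [Polynomial.coeff_map]
  exact io_nn _

/-- the roots of a distinguished polynomial have positive order -/
lemma root_pos {w : Polynomial (PowerSeries k)}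
    (hw : w.IsDistinguishedAt (IsLocalRing.maximalIdeal (PowerSeries k))) {α : Hah k}
    (hα : (w.map (io (RingHom.id k))).eval α = 0) : ∀ γ ≤ 0, α.coeff γ = 0 := by
  by_cases h0 : α = 0
  · rw [h0]
    intro γ _
    rfl
  have key : 0 < α.order := by
    by_contra hle
    rw [not_lt] at hle
    have h1 : ((w.map (io (RingHom.id k))).eval α).coeff (w.natDegree * α.order) ≠ 0 := by
      rw [Polynomial.eval_map, Polynomial.eval₂_eq_sum_range, Finset.sum_range_succ,
        HahnSeries.coeff_add, HahnSeries.coeff_sum]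
      rw [Finset.sum_eq_zero]
      · rw [zero_add, Polynomial.coeff_natDegree, hw.monic.leadingCoeff, map_one, one_mul]
        rw [← nsmul_eq_mul, ← HahnSeries.order_pow]
        exact HahnSeries.coeff_order_eq_zero.not.2 (pow_ne_zero _ h0)
      · intro i hi
        rw [Finset.mem_range] at hi
        have h2 : w.coeff i ∈ IsLocalRing.maximalIdeal (PowerSeries k) := hw.mem hi
        rw [PowerSeries.maximalIdeal_eq_span_X, Ideal.mem_span_singleton] at h2
        obtain ⟨c, hc⟩ := h2
        have h3 : ∀ γ < (1 : ℚ) + 0, (io (RingHom.id k) (w.coeff i)).coeff γ = 0 := by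
          rw [hc, map_mul]
          refine coeff_mul_zero ?_ (io_nn c)
          intro γ hγ
          rw [io_id, HahnSeries.ofPowerSeries_X, HahnSeries.coeff_single_of_ne hγ.ne]
        have h4 : ∀ γ < (i : ℚ) * α.order, (α ^ i).coeff γ = 0 := by
          intro γ hγ
          refine HahnSeries.coeff_eq_zero_of_lt_order ?_
          rw [HahnSeries.order_pow, nsmul_eq_mul]
          exact hγ
        refine coeff_mul_zero h3 h4 _ ?_
        have h5 : ((i : ℚ) + 1) ≤ w.natDegree := by exact_mod_cast hi
        nlinarith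
    rw [hα] at h1
    exact h1 rfl
  intro γ hγ
  exact HahnSeries.coeff_eq_zero_of_lt_order (lt_of_le_of_lt hγ key)

end CLM

open CLM in
theorem clm_all : S_CLM := by
  intro k _ _ _ N f0 f hf0 hj
  have : IsAdicComplete (IsLocalRing.maximalIdeal (PowerSeries k)) (PowerSeries k) := by
    rw [PowerSeries.maximalIdeal_eq_span_X]
    infer_instance
  obtain ⟨a, g0, hfa, hg0⟩ := exists_content hf0
  have hg := map_residue_ne hg0
  obtain ⟨w, u, hwu⟩ := PowerSeries.exists_isWeierstrassFactorization hg
  choose qq r hqr using fun j => PowerSeries.exists_isWeierstrassDivision (f j) hg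
  have hwm : w.Monic := hwu.isDistinguishedAt.monic
  set P : Polynomial (TH952.Hah k) := w.map (io (RingHom.id k)) with hP
  have hPm : P.Monic := hwm.map _
  by_cases hr : ∃ j, r j ≠ 0
  · -- first case
    obtain ⟨j, hrj⟩ := hr
    set R : Polynomial (TH952.Hah k) := (r j).map (io (RingHom.id k)) with hR
    have hR0 : R ≠ 0 := (Polynomial.map_ne_zero_iff io_inj).2 hrj
    have hdeg : R.degree < P.degree := by
      rw [hR, hP, Polynomial.degree_map_eq_of_injective io_inj,
        Polynomial.degree_map_eq_of_injective io_inj, Polynomial.degree_eq_natDegree hwm.ne_zero,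
        hwu.natDegree_eq_toNat_order_map]
      exact (hqr j).degree_lt
    obtain ⟨α, hα⟩ := exists_root hR0 hdeg
    have hroot : P.eval α = 0 := by
      have h1 : 0 < Polynomial.rootMultiplicity α P := lt_of_le_of_lt (Nat.zero_le _) hα
      exact (Polynomial.rootMultiplicity_pos hPm.ne_zero).1 h1
    have hpos : ∀ γ ≤ 0, α.coeff γ = 0 := root_pos hwu.isDistinguishedAt hroot
    have hαn : α ∈ nn k := fun γ hγ => hpos γ hγ.le
    set m := Polynomial.rootMultiplicity α P with hm
    set m' := Polynomial.rootMultiplicity α R with hm'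
    set c := (Polynomial.taylor α R).coeff m' with hc
    have hc0 : c ≠ 0 := by
      rw [hc, hm', Polynomial.rootMultiplicity_eq_natTrailingDegree, ← Polynomial.taylor_apply]
      exact Polynomial.trailingCoeff_nonzero_iff_nonzero.2 (by
        rw [Ne, Polynomial.taylor_eq_zero]
        exact hR0)
    have hPlow : ∀ i < m, (Polynomial.taylor α P).coeff i = 0 := by
      intro i hi
      refine Polynomial.coeff_eq_zero_of_lt_natTrailingDegree ?_
      rw [hm, Polynomial.rootMultiplicity_eq_natTrailingDegree, ← Polynomial.taylor_apply] at hi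
      exact hi
    set q : ℚ := max 1 (c.order + 1) with hq
    have hq0 : 0 < q := lt_of_lt_of_le one_pos (le_max_left _ _)
    have hqc : c.order < q := lt_of_lt_of_le (lt_add_one _) (le_max_right _ _)
    refine ⟨α, q, hpos, hq0, fun E hE => ⟨j, ?_⟩⟩
    set γ0 : ℚ := c.order + m' * q with hγ0
    have hγ0m : γ0 < m * q := by
      have h1 : ((m' : ℚ) + 1) ≤ m := by exact_mod_cast hα
      nlinarith
    have hEr : (E (r j : PowerSeries (PowerSeries k))).coeff γ0 ≠ 0 := by
      rw [ev_poly hE]
      refine coeff_ne (i := m') ?_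
      have e : γ0 - m' * q = c.order := by rw [hγ0]; ring
      rw [e]
      exact HahnSeries.coeff_order_eq_zero.not.2 hc0
    have hEw : ∀ γ < (m : ℚ) * q, (E (w : PowerSeries (PowerSeries k))).coeff γ = 0 := by
      intro γ hγ
      rw [ev_poly hE]
      refine coeff_zero fun i => ?_
      by_cases hi : i < m
      · rw [← hP, hPlow i hi]
        rfl
      · refine taylor_nn hαn w i _ ?_
        have h1 : (m : ℚ) ≤ i := by exact_mod_cast not_lt.1 hi
        nlinarith
    have hmul : ∀ h : O2 k, ∀ γ < (m : ℚ) * q, (E (g0 * h)).coeff γ = 0 := by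
      intro h γ hγ
      rw [hwu.eq_mul, mul_assoc, map_mul]
      exact coeff_mul_zero hEw (ev_nn hE (u * h)) γ (by rw [add_zero]; exact hγ)
    have hEf : (E (f j)).coeff γ0 ≠ 0 := by
      rw [(hqr j).eq_mul_add, map_add, HahnSeries.coeff_add, hmul _ _ hγ0m, zero_add]
      exact hEr
    refine ⟨fun h => hEf (by rw [h]; rfl), ?_⟩
    by_cases hE0 : E f0 = 0
    · exact Or.inl hE0
    right
    have h1 : (E (f j)).order ≤ γ0 := HahnSeries.order_le_of_coeff_ne_zero hEf
    have h2 : (m : ℚ) * q ≤ (E f0).order := by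
      by_contra hlt
      refine HahnSeries.coeff_order_eq_zero.not.2 hE0 ?_
      have h3 := hmul (sX k ^ a) _ (not_le.1 hlt)
      rwa [mul_comm, ← hfa] at h3
    linarith
  · -- second case
    push Not at hr
    obtain ⟨j, hj⟩ := hj
    have hfj : f j = g0 * qq j := by
      have := (hqr j).eq_mul_add
      rw [hr j] at this
      simpa using this
    have hnd : ¬ sX k ^ a ∣ qq j := by
      rintro ⟨c, hc⟩
      apply hj
      rw [hfj, hc, hfa]
      exact ⟨c, by ring⟩
    obtain ⟨i, hi⟩ : ∃ i, ¬ (PowerSeries.X : PowerSeries k) ^ a ∣ PowerSeries.coeff i (qq j) := by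
      by_contra h
      push Not at h
      exact hnd (sX_pow_dvd h)
    rw [PowerSeries.X_pow_dvd_iff] at hi
    push Not at hi
    obtain ⟨o, hoa, ho⟩ := hi
    set q : ℚ := 1 / ((i : ℚ) + 1) with hq
    have hq0 : 0 < q := by positivity
    have hiq : (i : ℚ) * q < 1 := by
      rw [hq, mul_one_div, div_lt_one (by positivity)]
      exact lt_add_one _
    refine ⟨0, q, fun γ _ => rfl, hq0, fun E hE => ⟨j, ?_⟩⟩
    have hdsc : dsc (0 : TH952.Hah k) q = HahnSeries.single q RatFunc.X := by
      unfold dsc
      rw [map_zero, zero_add]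
    have hord : (dsc (0 : TH952.Hah k) q).order = q := by
      rw [hdsc, HahnSeries.order_single RatFunc.X_ne_zero]
    -- the value of `w`
    have hEw : E (w : PowerSeries (PowerSeries k)) ≠ 0 := by
      intro h0
      have h1 : (E (w : PowerSeries (PowerSeries k))).coeff (P.natDegree * q) ≠ 0 := by
        rw [ev_poly hE]
        refine coeff_ne (i := P.natDegree) ?_
        rw [← hP, Polynomial.taylor_zero, Polynomial.coeff_natDegree, hPm.leadingCoeff, sub_self,
          HahnSeries.coeff_one, if_pos rfl]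
        exact one_ne_zero
      rw [h0] at h1
      exact h1 rfl
    have hEu := unit_order hE hwu.isUnit
    have hEg : E g0 ≠ 0 := by
      rw [hwu.eq_mul, map_mul]
      exact mul_ne_zero hEw hEu.1
    -- the value of the quotient
    have hEq : (E (qq j)).coeff (o + i * q) ≠ 0 := by
      obtain ⟨N', hN'⟩ := exists_nat_gt (max ((o + i * q) / q) i)
      have h1 : (o : ℚ) + i * q < N' * q := by
        have := lt_of_le_of_lt (le_max_left _ _) hN'
        rwa [div_lt_iff₀ hq0] at this
      have h2 : i < N' := by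
        have := lt_of_le_of_lt (le_max_right _ _) hN'
        exact_mod_cast this
      rw [hE.cont (qq j) _ N' (by rw [hord]; exact h1), ev_poly hE]
      refine coeff_ne (i := i) ?_
      rw [Polynomial.taylor_zero, Polynomial.coeff_map, PowerSeries.coeff_trunc, if_pos h2,
        add_sub_cancel_right, io_coeff]
      exact ho
    have hEq0 : E (qq j) ≠ 0 := fun h => hEq (by rw [h]; rfl)
    have hEf : E (f j) ≠ 0 := by
      rw [hfj, map_mul]
      exact mul_ne_zero hEg hEq0
    refine ⟨hEf, Or.inr ?_⟩
    have hEs : E (sX k) = HahnSeries.single 1 1 := by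
      unfold sX
      rw [hE.C, io_C, io_id, HahnSeries.ofPowerSeries_X]
      ext γ
      rw [mp_coeff]
      by_cases h : γ = 1
      · rw [h, HahnSeries.coeff_single_same, HahnSeries.coeff_single_same, map_one]
      · rw [HahnSeries.coeff_single_of_ne h, HahnSeries.coeff_single_of_ne h, map_zero]
    have h1 : (E (f j)).order = (E g0).order + (E (qq j)).order := by
      rw [hfj, map_mul, HahnSeries.order_mul hEg hEq0]
    have h2 : (E f0).order = a + (E g0).order := by
      rw [hfa, map_mul, map_pow, hEs, HahnSeries.order_mul (pow_ne_zero _ (by simp)) hEg,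
        HahnSeries.order_pow, HahnSeries.order_single one_ne_zero]
      simp
    have h3 : (E (qq j)).order ≤ o + i * q := HahnSeries.order_le_of_coeff_ne_zero hEq
    have h4 : (o : ℚ) + 1 ≤ a := by exact_mod_cast hoa
    rw [h1, h2]
    linarith

end Pool.Agent.TH152.BB
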